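import Mathlib

/-! Packet RS-AUTA, part 1: three-cycles. -/

set_option autoImplicit false

namespace Pool.Agent.Helper86.RS

open Equiv Equiv.Perm

section basic

variable {m : ℕ}

theorem cube {g : Perm (Fin m)} (hg : g.IsThreeCycle) (x : Fin m) : g (g (g x)) = x := by
  have h : (g ^ 3) x = x := by
    rw [← hg.orderOf, pow_orderOf_eq_one]
    rfl
  simpa [pow_succ] using h

theorem supp3 {g : Perm (Fin m)} (hg : g.IsThreeCycle) {p y : Fin m} (hp : g p ≠ p)
    (hy : g y ≠ y) : y = p ∨ y = g p ∨ y = g (g p) := by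
  have h := hg.support_eq_iff_mem_support.2 (Perm.mem_support.2 hp)
  have h1 : y ∈ g.support := Perm.mem_support.2 hy
  rw [h] at h1
  simpa using h1

theorem sq_ne {g : Perm (Fin m)} (hg : g.IsThreeCycle) {p : Fin m} (hp : g p ≠ p) :
    g (g p) ≠ p := by
  intro h
  have h1 := cube hg p
  rw [h] at h1
  exact hp h1

theorem exists_ne {g : Perm (Fin m)} (hg : g.IsThreeCycle) : ∃ p, g p ≠ p := by
  by_contra h
  push Not at h
  exact hg.ne_one (Equiv.ext h)

/-- the 3-cycle `x → y → z → x` -/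
def c3 (x y z : Fin m) : Perm (Fin m) := swap x y * swap y z

theorem c3_1 {x y z : Fin m} (hxy : x ≠ y) (hxz : x ≠ z) : c3 x y z x = y := by
  unfold c3
  rw [Perm.mul_apply, swap_apply_of_ne_of_ne hxy hxz, swap_apply_left]

theorem c3_2 {x y z : Fin m} (hxz : x ≠ z) (hyz : y ≠ z) : c3 x y z y = z := by
  unfold c3
  rw [Perm.mul_apply, swap_apply_left, swap_apply_of_ne_of_ne hxz.symm hyz.symm]

theorem c3_3 {x y z : Fin m} : c3 x y z z = x := by
  unfold c3
  rw [Perm.mul_apply, swap_apply_right, swap_apply_right]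

theorem c3_o {x y z w : Fin m} (h1 : w ≠ x) (h2 : w ≠ y) (h3 : w ≠ z) : c3 x y z w = w := by
  unfold c3
  rw [Perm.mul_apply, swap_apply_of_ne_of_ne h2 h3, swap_apply_of_ne_of_ne h1 h2]

theorem c3_cycle {x y z : Fin m} (hxy : x ≠ y) (hxz : x ≠ z) (hyz : y ≠ z) :
    (c3 x y z).IsThreeCycle := by
  unfold c3
  rw [swap_comm x y]
  exact isThreeCycle_swap_mul_swap_same hxy.symm hyz hxz

theorem c3_conj (s : Perm (Fin m)) (x y z : Fin m) :
    s * c3 x y z * s⁻¹ = c3 (s x) (s y) (s z) := by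
  unfold c3
  rw [swap_apply_apply, swap_apply_apply]
  group

theorem eq_c3 {g : Perm (Fin m)} (hg : g.IsThreeCycle) {p : Fin m} (hp : g p ≠ p) :
    g = c3 p (g p) (g (g p)) :=
  hg.eq_swap_mul_swap_iff_mem_support.2 (Perm.mem_support.2 hp)

theorem c3_rot {x y z : Fin m} (hxy : x ≠ y) (hxz : x ≠ z) (hyz : y ≠ z) :
    c3 x y z = c3 y z x := by
  apply Equiv.ext
  intro w
  by_cases h1 : w = x
  · subst h1
    rw [c3_1 hxy hxz, c3_3]
  by_cases h2 : w = y
  · subst h2
    rw [c3_2 hxz hyz, c3_1 hyz hxy.symm]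
  by_cases h3 : w = z
  · subst h3
    rw [c3_3, c3_2 hxy.symm hxz.symm]
  rw [c3_o h1 h2 h3, c3_o h2 h3 h1]

theorem c3_inv {x y z : Fin m} (hxy : x ≠ y) (hxz : x ≠ z) (hyz : y ≠ z) :
    (c3 x y z)⁻¹ = c3 x z y := by
  rw [inv_eq_iff_mul_eq_one]
  apply Equiv.ext
  intro w
  rw [Perm.mul_apply, Perm.one_apply]
  by_cases h1 : w = x
  · subst h1
    rw [c3_1 hxz hxy, c3_3]
  by_cases h2 : w = z
  · subst h2
    rw [c3_2 hxy hyz.symm, c3_2 hxz hyz]
  by_cases h3 : w = y
  · subst h3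
    rw [c3_3, c3_1 hxy hxz]
  rw [c3_o h1 h2 h3, c3_o h1 h3 h2]

/-- two 3-cycles whose product is an involution have a common arrow -/
theorem edge {g h : Perm (Fin m)} (hg : g.IsThreeCycle) (hh : h.IsThreeCycle)
    (hsq : ∀ x, g (h (g (h x))) = x) (hne : g * h ≠ 1) : ∃ p, g p ≠ p ∧ h p = g p := by
  by_contra hcon
  push Not at hcon
  obtain ⟨p0, hp0⟩ := exists_ne hg
  have hcommon : ∃ p, g p ≠ p ∧ h p ≠ p := by
    by_contra hc
    push Not at hc
    have h1 := hc p0 hp0
    have h2 : g (g p0) ≠ g p0 := fun h => hp0 (g.injective h)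
    have h3 := hc (g p0) h2
    have h4 := hsq p0
    rw [h1, h3] at h4
    exact sq_ne hg hp0 h4
  have key : ∀ p, g p ≠ p → h p ≠ p → g p = h (h p) := by
    intro p hp hp'
    have h1 : g (h (g p)) = h (h p) := by
      have h2 := hsq (h (h p))
      rw [cube hh] at h2
      exact h2
    by_cases h2 : h (g p) = g p
    · exfalso
      rw [h2] at h1
      have h3 : g (g p) ≠ p := sq_ne hg hp
      have h4 : g (g (g p)) ≠ g (g p) := by
        rw [cube hg]
        exact h3.symm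
      refine hcon (g (g p)) h4 ?_
      rw [cube hg, h1, cube hh]
    · rcases supp3 hh hp' h2 with h3 | h3 | h3
      · exact absurd h3 hp
      · exact absurd h3.symm (hcon p hp)
      · exact h3
  obtain ⟨p, hp, hp'⟩ := hcommon
  have k1 := key p hp hp'
  have hp2 : g (g p) ≠ g p := fun h => hp (g.injective h)
  have hp2' : h (g p) ≠ g p := by
    rw [k1, cube hh]
    exact (sq_ne hh hp').symm
  have k2 := key (g p) hp2 hp2'
  rw [k1, cube hh] at k2
  apply hne
  apply Equiv.ext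
  intro x
  rw [Perm.mul_apply, Perm.one_apply]
  by_cases hx : h x = x
  · rw [hx]
    by_contra hgx
    rcases supp3 hg hp hgx with h3 | h3 | h3
    · rw [h3] at hx
      exact hp' hx
    · rw [h3] at hx
      exact hp2' hx
    · rw [h3, k1, k2] at hx
      exact hp' (h.injective hx)
  · rcases supp3 hh hp' hx with h3 | h3 | h3
    · rw [h3, ← k2, ← k1, cube hg]
    · rw [h3, ← k1, k1, k2]
    · rw [h3, cube hh, k1]

/-- a third 3-cycle with common arrows -/
theorem tri {g1 g2 g3 : Perm (Fin m)} (h1 : g1.IsThreeCycle) (h2 : g2.IsThreeCycle)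
    (h3 : g3.IsThreeCycle) (h12 : g1 ≠ g2) {p : Fin m} (hp : g1 p ≠ p) (hp2 : g2 p = g1 p)
    (e1 : ∃ r, g3 r ≠ r ∧ g1 r = g3 r) (e2 : ∃ s, g3 s ≠ s ∧ g2 s = g3 s) : g3 p = g1 p := by
  obtain ⟨r, hr, hr1⟩ := e1
  obtain ⟨s, hs, hs1⟩ := e2
  have hp2' : g2 p ≠ p := by rw [hp2]; exact hp
  have hne : g1 (g1 p) ≠ g2 (g1 p) := by
    intro h
    apply h12
    rw [eq_c3 h1 hp, eq_c3 h2 hp2', hp2, h]
  have hr' : g1 r ≠ r := by rw [hr1]; exact hr
  have hs' : g2 s ≠ s := by rw [hs1]; exact hs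
  have c1 := supp3 h1 hp hr'
  have c2 := supp3 h2 hp2' hs'
  rw [hp2] at c2
  rcases c1 with c1 | c1 | c1
  · rw [c1] at hr1
    exact hr1.symm
  · rcases c2 with c2 | c2 | c2
    · rw [c2] at hs1
      rw [← hs1, hp2]
    · exfalso
      rw [c1] at hr1
      rw [c2] at hs1
      exact hne (hr1.trans hs1.symm)
    · exfalso
      rw [c1] at hr1 hr
      rw [c2] at hs1 hs
      -- g3 q = r', g3 s' = p
      have a1 : g3 (g2 (g1 p)) = p := by
        rw [← hs1, ← hp2, cube h2]
      have a2 := supp3 h3 hr hs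
      rcases a2 with a2 | a2 | a2
      · rw [← hp2] at a2
        exact hp2' (g2.injective a2)
      · rw [← hr1] at a2
        exact hne a2.symm
      · rw [a2, cube h3] at a1
        exact hp a1
  · rcases c2 with c2 | c2 | c2
    · rw [c2] at hs1
      rw [← hs1, hp2]
    · exfalso
      rw [c1] at hr1 hr
      rw [c2] at hs1 hs
      have a1 : g3 (g1 (g1 p)) = p := by
        rw [← hr1, cube h1]
      have a2 := supp3 h3 hs hr
      rcases a2 with a2 | a2 | a2
      · exact hp (g1.injective a2)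
      · rw [← hs1] at a2
        exact hne a2
      · rw [a2, cube h3] at a1
        exact hp a1
    · exfalso
      rw [c1] at hr1
      rw [c2] at hs1
      have a1 : g3 (g1 (g1 p)) = p := by
        rw [← hr1, cube h1]
      have a2 : g3 (g2 (g1 p)) = p := by
        rw [← hs1, ← hp2, cube h2]
      exact hne (g3.injective (a1.trans a2.symm))

/-- generation by the 3-cycles with a fixed arrow -/
theorem gen {a b : Fin m} (hab : a ≠ b) (K : Subgroup (Perm (Fin m)))
    (hK : ∀ x, x ≠ a → x ≠ b → c3 a b x ∈ K) {g : Perm (Fin m)} (hg : g.IsThreeCycle) : g ∈ K := by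
  have conj : ∀ k ∈ K, ∀ x y z, c3 x y z ∈ K → c3 (k x) (k y) (k z) ∈ K := by
    intro k hk x y z h
    rw [← c3_conj]
    exact K.mul_mem (K.mul_mem hk h) (K.inv_mem hk)
  have tB : ∀ y z, y ≠ a → y ≠ b → z ≠ a → z ≠ b → y ≠ z → c3 b y z ∈ K := by
    intro y z hya hyb hza hzb hyz
    have h := conj _ (hK y hya hyb) a b z (hK z hza hzb)
    rw [c3_1 hab hya.symm, c3_2 hya.symm hyb.symm, c3_o hza hzb hyz.symm] at h
    exact h
  have tA : ∀ y z, y ≠ a → y ≠ b → z ≠ a → z ≠ b → y ≠ z → c3 a y z ∈ K := by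
    intro y z hya hyb hza hzb hyz
    have h := conj _ (K.inv_mem (hK z hza hzb)) a b y (hK y hya hyb)
    rw [c3_inv hab hza.symm hzb.symm, c3_1 hza.symm hab, c3_3, c3_o hya hyz hyb] at h
    rw [c3_rot hza.symm.symm hyz.symm hya.symm] at h
    exact h
  have tN : ∀ x y z, x ≠ a → x ≠ b → y ≠ a → y ≠ b → z ≠ a → z ≠ b → x ≠ y → x ≠ z → y ≠ z →
      c3 x y z ∈ K := by
    intro x y z hxa hxb hya hyb hza hzb hxy hxz hyz
    have h := conj _ (hK x hxa hxb) b y z (tB y z hya hyb hza hzb hyz)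
    rw [c3_2 hxa.symm hxb.symm, c3_o hya hyb hxy.symm, c3_o hza hzb hxz.symm] at h
    exact h
  by_cases ha : g a = a
  · by_cases hb : g b = b
    · obtain ⟨p, hp⟩ := exists_ne hg
      have hpp : g (g p) ≠ g p := fun h => hp (g.injective h)
      have hp3 : g (g p) ≠ p := sq_ne hg hp
      rw [eq_c3 hg hp]
      have n1 : ∀ w, g w ≠ w → w ≠ a ∧ w ≠ b := by
        intro w hw
        constructor
        · rintro rfl
          exact hw ha
        · rintro rfl
          exact hw hb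
      have n2 := n1 p hp
      have n3 := n1 (g p) hpp
      have n4 := n1 (g (g p)) (fun h => hpp (g.injective h))
      exact tN _ _ _ n2.1 n2.2 n3.1 n3.2 n4.1 n4.2 hp.symm hp3.symm hpp.symm
    · rw [eq_c3 hg hb]
      have hpp : g (g b) ≠ g b := fun h => hb (g.injective h)
      have hp3 : g (g b) ≠ b := sq_ne hg hb
      have n1 : ∀ w, g w ≠ w → w ≠ a := by
        intro w hw
        rintro rfl
        exact hw ha
      exact tB _ _ (n1 _ hpp) hb (n1 _ (fun h => hpp (g.injective h))) hp3 hpp.symm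
  · rw [eq_c3 hg ha]
    have hpp : g (g a) ≠ g a := fun h => ha (g.injective h)
    have hp3 : g (g a) ≠ a := sq_ne hg ha
    by_cases h1 : g a = b
    · rw [h1] at hpp hp3 ⊢
      exact hK _ hp3 hpp
    · by_cases h2 : g (g a) = b
      · rw [h2, ← c3_inv hab (Ne.symm ha) (Ne.symm h1)]
        exact K.inv_mem (hK _ ha h1)
      · exact tA _ _ ha h1 hp3 h2 hpp.symm

end basic

end Pool.Agent.Helper86.RS
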