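import Pool.Agent.Helper10.RS.Goals
import Pool.Agent.Helper86.RS.Cyc

/-! Packet RS-AUTA: automorphisms of the alternating groups. -/

set_option autoImplicit false

universe u

namespace Pool.Agent.Helper86.RS

open Equiv Equiv.Perm

section num

open Nat

theorem num1 : ∀ j : ℕ, 3 ≤ j → 2 * 3 ^ j * j ! < 3 * (3 * j - 3)! := by
  intro j hj
  induction j, hj using Nat.le_induction with
  | base => decide
  | succ j hj ih =>
    have e1 : 3 * (j + 1) - 3 = (3 * j - 3) + 3 := by omega
    obtain ⟨k, hk⟩ : ∃ k, 3 * j - 3 = k := ⟨_, rfl⟩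
    rw [e1, hk]
    rw [hk] at ih
    have e2 : (k + 3)! = (k + 3) * ((k + 2) * ((k + 1) * k !)) := by
      rw [Nat.factorial_succ, Nat.factorial_succ, Nat.factorial_succ]
    rw [e2, Nat.factorial_succ, pow_succ]
    have h3 : 3 * (j + 1) ≤ (k + 3) * ((k + 2) * (k + 1)) := by
      have h4 : k = 3 * j - 3 := hk.symm
      have h5 : 3 * j = k + 3 := by omega
      have h6 : 3 * (j + 1) = k + 6 := by omega
      rw [h6]
      have h7 : 6 ≤ k := by omega
      nlinarith [Nat.mul_le_mul h7 h7]
    have h0 : 0 < 3 * (j + 1) := by omega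
    calc 2 * (3 ^ j * 3) * ((j + 1) * j !) = (3 * (j + 1)) * (2 * 3 ^ j * j !) := by ring
      _ < (3 * (j + 1)) * (3 * k !) := Nat.mul_lt_mul_of_pos_left ih h0
      _ ≤ ((k + 3) * ((k + 2) * (k + 1))) * (3 * k !) := Nat.mul_le_mul_right _ h3
      _ = 3 * ((k + 3) * ((k + 2) * ((k + 1) * k !))) := by ring

theorem num2 {m j : ℕ} (hm : 7 ≤ m) (hj : 2 ≤ j) (h3 : 3 * j ≤ m) :
    2 * ((m - 3 * j)! * 3 ^ j * j !) < 3 * (m - 3)! := by
  rcases Nat.lt_or_ge j 3 with h | h
  · have hj2 : j = 2 := by omega
    subst hj2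
    obtain ⟨k, rfl⟩ : ∃ k, m = k + 6 := ⟨m - 6, by omega⟩
    have e1 : k + 6 - 3 * 2 = k := by omega
    have e2 : k + 6 - 3 = k + 3 := by omega
    rw [e1, e2]
    have e3 : (k + 3)! = (k + 3) * ((k + 2) * ((k + 1) * k !)) := by
      rw [Nat.factorial_succ, Nat.factorial_succ, Nat.factorial_succ]
    rw [e3]
    have hk : 1 ≤ k := by omega
    have h24 : 24 ≤ (k + 3) * ((k + 2) * (k + 1)) := by
      calc 24 = 4 * (3 * 2) := by norm_num
        _ ≤ (k + 3) * ((k + 2) * (k + 1)) :=
          Nat.mul_le_mul (by omega) (Nat.mul_le_mul (by omega) (by omega))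
    have hpos : 0 < k ! := Nat.factorial_pos k
    have h2f : (2 : ℕ)! = 2 := rfl
    rw [h2f]
    calc 2 * (k ! * 3 ^ 2 * 2) = 36 * k ! := by ring
      _ < 72 * k ! := Nat.mul_lt_mul_of_pos_right (by norm_num) hpos
      _ = 3 * (24 * k !) := by ring
      _ ≤ 3 * (((k + 3) * ((k + 2) * (k + 1))) * k !) :=
        Nat.mul_le_mul_left _ (Nat.mul_le_mul_right _ h24)
      _ = 3 * ((k + 3) * ((k + 2) * ((k + 1) * k !))) := by ring
  · have h1 : (m - 3 * j)! * (3 * j - 3)! ≤ (m - 3)! := by
      have h2 := Nat.factorial_mul_factorial_dvd_factorial_add (m - 3 * j) (3 * j - 3)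
      have e1 : m - 3 * j + (3 * j - 3) = m - 3 := by omega
      rw [e1] at h2
      exact Nat.le_of_dvd (Nat.factorial_pos _) h2
    have hpos : 0 < (m - 3 * j)! := Nat.factorial_pos _
    calc 2 * ((m - 3 * j)! * 3 ^ j * j !) = (m - 3 * j)! * (2 * 3 ^ j * j !) := by ring
      _ < (m - 3 * j)! * (3 * (3 * j - 3)!) := Nat.mul_lt_mul_of_pos_left (num1 j h) hpos
      _ = 3 * ((m - 3 * j)! * (3 * j - 3)!) := by ring
      _ ≤ 3 * (m - 3)! := Nat.mul_le_mul_left _ h1

end num

section autos

variable {m : ℕ}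

/-- centralizer of a product of `j` disjoint 3-cycles -/
theorem card_cent {h : Perm (Fin m)} {j : ℕ} (hj : 1 ≤ j)
    (hh : h.cycleType = Multiset.replicate j 3) :
    Nat.card (Subgroup.centralizer {h}) = (m - 3 * j).factorial * 3 ^ j * j.factorial := by
  rw [nat_card_centralizer, hh, Multiset.sum_replicate, Multiset.prod_replicate, Fintype.card_fin,
    smul_eq_mul, mul_comm j 3]
  congr 1
  rw [Multiset.toFinset_replicate, if_neg (by omega), Finset.prod_singleton,
    Multiset.count_replicate_self]

theorem card_cent_alt (φ : MulAut (alternatingGroup (Fin m))) (g : alternatingGroup (Fin m)) :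
    Nat.card (Subgroup.centralizer {g}) = Nat.card (Subgroup.centralizer {φ g}) := by
  refine Nat.card_congr (Equiv.subtypeEquiv φ.toEquiv fun x => ?_)
  rw [Subgroup.mem_centralizer_singleton_iff, Subgroup.mem_centralizer_singleton_iff]
  show _ ↔ φ x * φ g = φ g * φ x
  rw [← map_mul, ← map_mul, EmbeddingLike.apply_eq_iff_eq]

theorem card_alt_le (g : alternatingGroup (Fin m)) :
    Nat.card (Subgroup.centralizer {g}) ≤ Nat.card (Subgroup.centralizer {(g : Perm (Fin m))}) := by
  refine Nat.card_le_card_of_injective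
    (fun x => ⟨((x : alternatingGroup (Fin m)) : Perm (Fin m)), ?_⟩) ?_
  · have h := x.2
    rw [Subgroup.mem_centralizer_singleton_iff] at h ⊢
    exact congrArg Subtype.val h
  · intro x y hxy
    have := congrArg Subtype.val hxy
    exact Subtype.ext (Subtype.ext this)

theorem card_perm_le (hm : 2 ≤ m) (g : alternatingGroup (Fin m)) :
    Nat.card (Subgroup.centralizer {(g : Perm (Fin m))})
      ≤ Nat.card (Subgroup.centralizer {g}) * 2 := by
  haveI : Nontrivial (Fin m) := Fin.nontrivial_iff_two_le.2 hm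
  set K := Subgroup.centralizer {(g : Perm (Fin m))} with hK
  have h1 : Nat.card ((alternatingGroup (Fin m)).subgroupOf K)
      * ((alternatingGroup (Fin m)).subgroupOf K).index = Nat.card K :=
    Subgroup.card_mul_index _
  have h2 : ((alternatingGroup (Fin m)).subgroupOf K).index ≤ 2 := by
    have h3 : (alternatingGroup (Fin m)).relIndex K ∣ (alternatingGroup (Fin m)).index :=
      Subgroup.relIndex_dvd_index_of_normal _ _
    have h4 : (alternatingGroup (Fin m)).index = 2 := by
      have h5 := (alternatingGroup (Fin m)).card_mul_index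
      have h6 := two_mul_nat_card_alternatingGroup (α := Fin m)
      have h7 : 0 < Nat.card (alternatingGroup (Fin m)) := Nat.card_pos
      rw [← h6, mul_comm 2] at h5
      exact Nat.eq_of_mul_eq_mul_left h7 h5
    rw [h4] at h3
    exact Nat.le_of_dvd (by norm_num) h3
  have h3 : Nat.card ((alternatingGroup (Fin m)).subgroupOf K)
      ≤ Nat.card (Subgroup.centralizer {g}) := by
    refine Nat.card_le_card_of_injective
      (fun x => ⟨⟨((x : K) : Perm (Fin m)), Subgroup.mem_subgroupOf.1 x.2⟩, ?_⟩) ?_
    · have h : ((x : K) : Perm (Fin m)) ∈ Subgroup.centralizer {(g : Perm (Fin m))} := x.1.2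
      rw [Subgroup.mem_centralizer_singleton_iff] at h
      rw [Subgroup.mem_centralizer_singleton_iff]
      exact Subtype.ext h
    · intro x y hxy
      have := congrArg (fun z => (((z : Subgroup.centralizer {g}) : alternatingGroup (Fin m)) :
        Perm (Fin m))) hxy
      exact Subtype.ext (Subtype.ext this)
  rw [← h1]
  exact Nat.mul_le_mul h3 h2

/-- automorphisms map 3-cycles to 3-cycles -/
theorem map3 (hm : 7 ≤ m) (φ : MulAut (alternatingGroup (Fin m))) (g : alternatingGroup (Fin m))
    (hg : (g : Perm (Fin m)).IsThreeCycle) : ((φ g : alternatingGroup (Fin m)) : Perm (Fin m)).IsThreeCycle := by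
  have ho : orderOf ((φ g : alternatingGroup (Fin m)) : Perm (Fin m)) = 3 := by
    rw [Subgroup.orderOf_coe, MulEquiv.orderOf_eq, ← Subgroup.orderOf_coe]
    exact hg.orderOf
  have hp : (orderOf ((φ g : alternatingGroup (Fin m)) : Perm (Fin m))).Prime := by
    rw [ho]
    norm_num
  obtain ⟨n, hn⟩ := cycleType_prime_order hp
  rw [ho] at hn
  rcases Nat.eq_zero_or_pos n with h0 | h0
  · subst h0
    rw [zero_add] at hn
    exact hn
  · exfalso
    have hsum : 3 * (n + 1) ≤ m := by
      have h1 : (((φ g : alternatingGroup (Fin m)) : Perm (Fin m)).cycleType).sum ≤ Fintype.card (Fin m) := by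
        rw [sum_cycleType]
        exact Finset.card_le_univ _
      rw [hn, Multiset.sum_replicate, Fintype.card_fin, smul_eq_mul] at h1
      omega
    have c1 : Nat.card (Subgroup.centralizer {(g : Perm (Fin m))})
        = (m - 3 * 1).factorial * 3 ^ 1 * (1 : ℕ).factorial :=
      card_cent le_rfl (by rw [Multiset.replicate_one]; exact hg)
    have c2 := card_cent (by omega) hn
    have c3 := card_perm_le (by omega) g
    have c4 := card_alt_le (φ g)
    rw [card_cent_alt φ g] at c3
    have c5 := num2 hm (by omega) hsum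
    rw [c2] at c4
    rw [c1] at c3
    have c6 : (m - 3 * 1).factorial * 3 ^ 1 * (1 : ℕ).factorial = 3 * (m - 3).factorial := by
      rw [Nat.factorial_one, mul_one, mul_one, pow_one, mul_comm]
    rw [c6] at c3
    omega

/-- the product of two 3-cycles with a common arrow -/
theorem mul_c3 {a b x y : Fin m} (hab : a ≠ b) (hxa : x ≠ a) (hxb : x ≠ b) :
    c3 a b x * c3 a b y = swap a x * swap b y := by
  unfold c3
  have h : swap a b * swap b x * swap a b = swap a x := by
    have := swap_apply_apply (swap a b) b x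
    rw [swap_apply_right, swap_apply_of_ne_of_ne hxa hxb, swap_inv] at this
    exact this.symm
  rw [← h]
  group

/-- every automorphism is a conjugation -/
theorem core (hm : 7 ≤ m) (φ : MulAut (alternatingGroup (Fin m))) :
    ∃ s : Perm (Fin m), MulAut.conjNormal s = φ := by
  classical
  have hinj3 : ∀ g : alternatingGroup (Fin m), (g : Perm (Fin m)).IsThreeCycle →
      ((φ g : alternatingGroup (Fin m)) : Perm (Fin m)).IsThreeCycle := fun g hg => map3 hm φ g hg
  set a : Fin m := ⟨0, by omega⟩ with ha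
  set b : Fin m := ⟨1, by omega⟩ with hb
  set x1 : Fin m := ⟨2, by omega⟩ with hx1
  set x2 : Fin m := ⟨3, by omega⟩ with hx2
  have hab : a ≠ b := by simp [ha, hb]
  have h1a : x1 ≠ a := by simp [ha, hx1]
  have h1b : x1 ≠ b := by simp [hb, hx1]
  have h2a : x2 ≠ a := by simp [ha, hx2]
  have h2b : x2 ≠ b := by simp [hb, hx2]
  have h12 : x1 ≠ x2 := by simp [hx1, hx2]
  have hcyc : ∀ x, x ≠ a → x ≠ b → (c3 a b x).IsThreeCycle := fun x hxa hxb =>
    c3_cycle hab hxa.symm hxb.symm
  let γ : Fin m → alternatingGroup (Fin m) := fun x =>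
    if h : x ≠ a ∧ x ≠ b then ⟨c3 a b x, (hcyc x h.1 h.2).mem_alternatingGroup⟩ else 1
  have hγ : ∀ x, x ≠ a → x ≠ b → (γ x : Perm (Fin m)) = c3 a b x := by
    intro x hxa hxb
    have : γ x = ⟨c3 a b x, (hcyc x hxa hxb).mem_alternatingGroup⟩ := dif_pos ⟨hxa, hxb⟩
    rw [this]
  let G : Fin m → Perm (Fin m) := fun x => ((φ (γ x) : alternatingGroup (Fin m)) : Perm (Fin m))
  have hG3 : ∀ x, x ≠ a → x ≠ b → (G x).IsThreeCycle := by
    intro x hxa hxb
    apply hinj3
    rw [hγ x hxa hxb]
    exact hcyc x hxa hxb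
  have hGinj : ∀ x y, x ≠ a → x ≠ b → y ≠ a → y ≠ b → G x = G y → x = y := by
    intro x y hxa hxb hya hyb h
    have h1 : γ x = γ y := φ.injective (Subtype.ext h)
    have h2 : c3 a b x = c3 a b y := by
      rw [← hγ x hxa hxb, ← hγ y hya hyb, h1]
    have h3 : c3 a b x b = c3 a b y b := by rw [h2]
    rw [c3_2 hxa.symm hxb.symm, c3_2 hya.symm hyb.symm] at h3
    exact h3
  have hedge : ∀ x y, x ≠ a → x ≠ b → y ≠ a → y ≠ b → x ≠ y →
      ∃ p, G x p ≠ p ∧ G y p = G x p := by
    intro x y hxa hxb hya hyb hxy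
    have hprod : γ x * γ y * (γ x * γ y) = 1 := by
      apply Subtype.ext
      show (γ x : Perm (Fin m)) * γ y * (γ x * γ y) = 1
      rw [hγ x hxa hxb, hγ y hya hyb, mul_c3 hab hxa hxb]
      have hd : Perm.Disjoint (swap a x) (swap b y) := by
        intro z
        by_cases h1 : z = a
        · right
          rw [h1]
          exact swap_apply_of_ne_of_ne hab hya.symm
        · by_cases h2 : z = x
          · right
            rw [h2]
            exact swap_apply_of_ne_of_ne hxb hxy
          · left
            exact swap_apply_of_ne_of_ne h1 h2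
      have hc : swap a x * swap b y = swap b y * swap a x := hd.commute
      calc swap a x * swap b y * (swap a x * swap b y)
          = swap a x * (swap b y * swap a x) * swap b y := by group
        _ = swap a x * (swap a x * swap b y) * swap b y := by rw [hc]
        _ = (swap a x * swap a x) * (swap b y * swap b y) := by group
        _ = 1 := by rw [swap_mul_self, swap_mul_self, one_mul]
    have hne : γ x * γ y ≠ 1 := by
      intro h
      have h1 : c3 a b x * c3 a b y = 1 := by
        rw [← hγ x hxa hxb, ← hγ y hya hyb]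
        exact congrArg Subtype.val h
      rw [mul_c3 hab hxa hxb] at h1
      have h2 : (swap a x * swap b y) a = (1 : Perm (Fin m)) a := by rw [h1]
      rw [Perm.mul_apply, swap_apply_of_ne_of_ne hab hya.symm, swap_apply_left, Perm.one_apply] at h2
      exact hxa h2
    refine edge (hG3 x hxa hxb) (hG3 y hya hyb) ?_ ?_
    · intro z
      have h1 := congrArg (fun t : alternatingGroup (Fin m) => ((φ t : alternatingGroup (Fin m)) : Perm (Fin m)) z) hprod
      simpa using h1
    · intro h
      apply hne
      apply φ.injective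
      rw [map_one, map_mul]
      exact Subtype.ext h
  obtain ⟨p, hp, hp2⟩ := hedge x1 x2 h1a h1b h2a h2b h12
  set q : Fin m := G x1 p with hq
  have hGne : G x1 ≠ G x2 := fun h => h12 (hGinj x1 x2 h1a h1b h2a h2b h)
  have hall : ∀ x, x ≠ a → x ≠ b → G x p = q := by
    intro x hxa hxb
    by_cases e1 : x = x1
    · rw [e1]
    by_cases e2 : x = x2
    · rw [e2, hp2]
    exact tri (hG3 x1 h1a h1b) (hG3 x2 h2a h2b) (hG3 x hxa hxb) hGne hp hp2
      (hedge x x1 hxa hxb h1a h1b e1) (hedge x x2 hxa hxb h2a h2b e2)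
  have hpq : p ≠ q := hp.symm
  let σ : Fin m → Fin m := fun x => if x = a then p else if x = b then q else G x q
  have σa : σ a = p := if_pos rfl
  have σb : σ b = q := by
    show (if b = a then p else if b = b then q else G b q) = q
    rw [if_neg hab.symm, if_pos rfl]
  have σx : ∀ x, x ≠ a → x ≠ b → σ x = G x q := by
    intro x hxa hxb
    show (if x = a then p else if x = b then q else G x q) = G x q
    rw [if_neg hxa, if_neg hxb]
  have mv : ∀ x, x ≠ a → x ≠ b → G x p ≠ p := by
    intro x hxa hxb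
    rw [hall x hxa hxb]
    exact hp
  have nep : ∀ x, x ≠ a → x ≠ b → G x q ≠ p := by
    intro x hxa hxb h
    apply sq_ne (hG3 x hxa hxb) (mv x hxa hxb)
    rw [hall x hxa hxb]
    exact h
  have neq : ∀ x, x ≠ a → x ≠ b → G x q ≠ q := by
    intro x hxa hxb h
    have h1 : G x q = G x p := by rw [hall x hxa hxb, h]
    exact hpq ((G x).injective h1).symm
  have hGc : ∀ x, x ≠ a → x ≠ b → G x = c3 p q (G x q) := by
    intro x hxa hxb
    have h1 := eq_c3 (hG3 x hxa hxb) (mv x hxa hxb)
    rw [hall x hxa hxb] at h1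
    exact h1
  have hσinj : Function.Injective σ := by
    intro x y hxy
    by_cases xa : x = a
    · by_cases ya : y = a
      · rw [xa, ya]
      · by_cases yb : y = b
        · rw [xa, yb, σa, σb] at hxy
          exact absurd hxy hpq
        · rw [xa, σa, σx y ya yb] at hxy
          exact absurd hxy.symm (nep y ya yb)
    · by_cases xb : x = b
      · by_cases ya : y = a
        · rw [xb, ya, σa, σb] at hxy
          exact absurd hxy.symm hpq
        · by_cases yb : y = b
          · rw [xb, yb]
          · rw [xb, σb, σx y ya yb] at hxy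
            exact absurd hxy.symm (neq y ya yb)
      · by_cases ya : y = a
        · rw [ya, σa, σx x xa xb] at hxy
          exact absurd hxy (nep x xa xb)
        · by_cases yb : y = b
          · rw [yb, σb, σx x xa xb] at hxy
            exact absurd hxy (neq x xa xb)
          · rw [σx x xa xb, σx y ya yb] at hxy
            apply hGinj x y xa xb ya yb
            rw [hGc x xa xb, hGc y ya yb, hxy]
  let s : Perm (Fin m) := Equiv.ofBijective σ (Finite.injective_iff_bijective.1 hσinj)
  have hs : ∀ x, s x = σ x := fun x => rfl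
  refine ⟨s, ?_⟩
  -- the subgroup where the two automorphisms agree
  let K : Subgroup (alternatingGroup (Fin m)) :=
    MonoidHom.eqLocus (φ : alternatingGroup (Fin m) →* alternatingGroup (Fin m))
      ((MulAut.conjNormal s : MulAut (alternatingGroup (Fin m))) :
        alternatingGroup (Fin m) →* alternatingGroup (Fin m))
  have hK : ∀ k, k ∈ K ↔ φ k = MulAut.conjNormal s k := fun k => Iff.rfl
  have hγK : ∀ x, x ≠ a → x ≠ b → c3 a b x ∈ K.map (alternatingGroup (Fin m)).subtype := by
    intro x hxa hxb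
    refine ⟨γ x, ?_, hγ x hxa hxb⟩
    show γ x ∈ K
    rw [hK]
    apply Subtype.ext
    rw [MulAut.conjNormal_apply, hγ x hxa hxb, c3_conj, hs, hs, hs, σa, σb, σx x hxa hxb]
    exact hGc x hxa hxb
  have htop : K = ⊤ := by
    rw [eq_top_iff, ← alternatingGroup.closure_isThreeCycles_eq_top, Subgroup.closure_le]
    intro g hg
    have h1 := gen hab _ hγK hg
    obtain ⟨k, hk, hkg⟩ := h1
    have : k = g := Subtype.ext hkg
    rw [← this]
    exact hk
  apply MulEquiv.ext
  intro k
  have h1 : k ∈ K := by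
    rw [htop]
    exact Subgroup.mem_top k
  rw [hK] at h1
  exact h1.symm

theorem conj_inj (hm : 7 ≤ m) :
    Function.Injective (MulAut.conjNormal : Perm (Fin m) →* MulAut (alternatingGroup (Fin m))) := by
  classical
  rw [injective_iff_map_eq_one]
  intro s hs
  by_contra hne
  have h1 : ∃ x, s x ≠ x := by
    by_contra h
    push Not at h
    exact hne (Equiv.ext h)
  obtain ⟨x, hx⟩ := h1
  have h2 : 1 < (({x, s x} : Finset (Fin m))ᶜ).card := by
    rw [Finset.card_compl, Fintype.card_fin]
    have := Finset.card_le_two (a := x) (b := s x)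
    omega
  obtain ⟨u, v, hu, hv, huv⟩ := Finset.one_lt_card_iff.1 h2
  simp only [Finset.mem_compl, Finset.mem_insert, Finset.mem_singleton, not_or] at hu hv
  have hux : x ≠ u := Ne.symm hu.1
  have hvx : x ≠ v := Ne.symm hv.1
  have hcyc : (c3 x u v).IsThreeCycle := c3_cycle hux hvx huv
  have h3 := congrArg (fun t : MulAut (alternatingGroup (Fin m)) =>
    ((t ⟨c3 x u v, hcyc.mem_alternatingGroup⟩ : alternatingGroup (Fin m)) : Perm (Fin m)) (s x)) hs
  simp only [MulAut.conjNormal_apply, MulAut.one_apply] at h3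
  have h4 : s⁻¹ (s x) = x := by simp
  rw [Perm.mul_apply, Perm.mul_apply, h4, c3_1 hux hvx,
    c3_o hx (Ne.symm hu.2) (Ne.symm hv.2)] at h3
  exact hu.1 (s.injective h3)

end autos

theorem p_auta : Pool.Agent.Helper10.RS.AUTA.{u} := by
  intro B _ _ A _ m hm he hc
  obtain ⟨e⟩ := he
  haveI : Nontrivial (Fin m) := Fin.nontrivial_iff_two_le.2 (by omega)
  let Θ : Perm (Fin m) ≃* MulAut (alternatingGroup (Fin m)) :=
    MulEquiv.ofBijective MulAut.conjNormal ⟨conj_inj hm, fun φ => core hm φ⟩
  let Ψ : B →* Perm (Fin m) :=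
    (Θ.symm : MulAut (alternatingGroup (Fin m)) →* Perm (Fin m)).comp
      (((MulAut.congr e : MulAut A ≃* MulAut (alternatingGroup (Fin m))) :
        MulAut A →* MulAut (alternatingGroup (Fin m))).comp MulAut.conjNormal)
  have hinj0 : Function.Injective (MulAut.conjNormal : B →* MulAut A) := by
    rw [injective_iff_map_eq_one]
    intro b hb
    have h1 : b ∈ Subgroup.centralizer (A : Set B) := by
      rw [Subgroup.mem_centralizer_iff]
      intro a ha
      have h2 := congrArg (fun t : MulAut A => ((t ⟨a, ha⟩ : A) : B)) hb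
      simp only [MulAut.conjNormal_apply, MulAut.one_apply] at h2
      rw [mul_inv_eq_iff_eq_mul] at h2
      exact h2.symm
    rw [hc] at h1
    exact Subgroup.mem_bot.1 h1
  have hΨ : Function.Injective Ψ :=
    Θ.symm.injective.comp ((MulAut.congr e).injective.comp hinj0)
  have hdvd : Nat.card B ∣ Nat.card (Perm (Fin m)) := Subgroup.card_dvd_of_injective Ψ hΨ
  have hA : Nat.card A = Nat.card (alternatingGroup (Fin m)) := Nat.card_congr e.toEquiv
  have h2 := two_mul_nat_card_alternatingGroup (α := Fin m)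
  have hmul := A.card_mul_index
  have hpos : 0 < Nat.card A := Nat.card_pos
  rw [← h2, ← hA, ← hmul, mul_comm 2] at hdvd
  have hidx : A.index ∣ 2 := Nat.dvd_of_mul_dvd_mul_left hpos hdvd
  rcases (Nat.dvd_prime Nat.prime_two).1 hidx with h | h
  · left
    exact Subgroup.index_eq_one.1 h
  · right
    have hcard : Nat.card B = Nat.card (Perm (Fin m)) := by
      rw [← hmul, h, ← h2, hA, mul_comm]
    exact ⟨MulEquiv.ofBijective Ψ ((Nat.bijective_iff_injective_and_card Ψ).2 ⟨hΨ, hcard⟩)⟩

end Pool.Agent.Helper86.RS
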