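import Pool.Agent.Helper38.RS.Goals2

/-!
# RS-LAM: a quadratic character from a count
-/

namespace Pool.Agent.Helper86.RS

open Polynomial Module Pool.Agent.Helper38.RS

section abs

variable {V : Type} [AddCommGroup V] [Module (ZMod 2) V]

theorem aeval_mem (d : Module.End (ZMod 2) V) (W : Submodule (ZMod 2) V)
    (h : ∀ v ∈ W, d v ∈ W) (p : (ZMod 2)[X]) : ∀ v ∈ W, aeval d p v ∈ W := by
  induction p using Polynomial.induction_on' with
  | add p q hp hq =>
    intro v hv
    rw [map_add]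
    exact W.add_mem (hp v hv) (hq v hv)
  | monomial n a =>
    intro v hv
    rw [aeval_monomial]
    have h1 : ∀ k : ℕ, (d ^ k) v ∈ W := by
      intro k
      induction k with
      | zero => simpa using hv
      | succ k ih =>
        rw [pow_succ']
        exact h _ ih
    have h2 : (algebraMap (ZMod 2) (Module.End (ZMod 2) V) a * d ^ n) v = a • (d ^ n) v := by
      simp [Module.algebraMap_end_apply]
    rw [h2]
    exact W.smul_mem _ (h1 n)

theorem abs_lam (m : ℕ) (hm : Odd m) (d : Module.End (ZMod 2) V) (hd : d ^ m = 1)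
    (P : (ZMod 2)[X]) (hP : P ∣ X ^ m - 1) (U G : Submodule (ZMod 2) V)
    (hG : ∀ v ∈ G, d v ∈ G) (hU : ∀ v ∈ U, d v ∈ U) (N : ℕ)
    (hN : ∀ F : Finset V, (∀ v ∈ F, v ∈ U ∧ aeval d P v = 0) → F.card ≤ N)
    (hF : ∃ F : Finset V, F.card = N ∧ (∀ v ∈ F, aeval d P v ∈ G) ∧
      ∀ v ∈ F, ∀ w ∈ F, v ≠ w → v - w ∉ G)
    (h0 : ∃ v₀ : V, v₀ ∈ U ∧ v₀ ∈ G ∧ aeval d P v₀ = 0 ∧ v₀ ≠ 0) :
    ∃ ℓ : V →ₗ[ZMod 2] ZMod 2, (∀ v ∈ U, ℓ v = 0) ∧ (∀ v ∈ G, ℓ v = 0) ∧
      (∀ v, ℓ (aeval d P v) = 0) ∧ ∃ v, ℓ v ≠ 0 := by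
  classical
  obtain ⟨F, hFN, hFP, hFG⟩ := hF
  obtain ⟨v₀, h0U, h0G, h0P, h00⟩ := h0
  -- the element v₁
  have hv1 : ∃ v₁ ∈ F, ∀ b, b ∈ U → aeval d P b = 0 → v₁ - b ∉ G := by
    by_contra hcon
    push Not at hcon
    choose! b hbU hbP hbG using hcon
    have hinj : ∀ v ∈ F, ∀ w ∈ F, b v - b w ∈ G → v = w := by
      intro v hv w hw hvw
      by_contra hne
      refine hFG v hv w hw hne ?_
      have : v - w = (v - b v) + (b v - b w) - (w - b w) := by abel
      rw [this]
      exact G.sub_mem (G.add_mem (hbG v hv) hvw) (hbG w hw)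
    have h1 : (F.image b).card = F.card := Finset.card_image_of_injOn fun v hv w hw h =>
      hinj v hv w hw (by rw [h, sub_self]; exact G.zero_mem)
    have h2 : (F.image fun v => b v + v₀).card = F.card :=
      Finset.card_image_of_injOn fun v hv w hw h => hinj v hv w hw (by
        have h' : b v = b w := add_right_cancel h
        rw [h', sub_self]
        exact G.zero_mem)
    have h3 : Disjoint (F.image b) (F.image fun v => b v + v₀) := by
      rw [Finset.disjoint_left]
      intro c hc1 hc2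
      obtain ⟨v, hv, rfl⟩ := Finset.mem_image.1 hc1
      obtain ⟨w, hw, hwv⟩ := Finset.mem_image.1 hc2
      have h4 : v = w := hinj v hv w hw (by
        rw [← hwv, add_sub_cancel_left]
        exact h0G)
      subst h4
      exact h00 (by simpa using hwv)
    have h4 := hN (F.image b ∪ F.image fun v => b v + v₀) (by
      intro c hc
      rcases Finset.mem_union.1 hc with hc | hc
      · obtain ⟨v, hv, rfl⟩ := Finset.mem_image.1 hc
        exact ⟨hbU v hv, hbP v hv⟩
      · obtain ⟨v, hv, rfl⟩ := Finset.mem_image.1 hc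
        refine ⟨U.add_mem (hbU v hv) h0U, ?_⟩
        rw [map_add, hbP v hv, h0P, add_zero])
    rw [Finset.card_union_of_disjoint h3, h1, h2, hFN] at h4
    have h5 := hN {v₀} (by
      intro c hc
      rw [Finset.mem_singleton] at hc
      subst hc
      exact ⟨h0U, h0P⟩)
    rw [Finset.card_singleton] at h5
    omega
  obtain ⟨v₁, hv1F, hv1⟩ := hv1
  obtain ⟨Q, hQ⟩ := hP
  have hsep : (X ^ m - 1 : (ZMod 2)[X]).Separable := by
    have hm2 : ((m : ℕ) : ZMod 2) ≠ 0 := by
      rw [Ne, ZMod.natCast_eq_zero_iff]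
      intro h
      exact (Nat.not_even_iff_odd.2 hm) (even_iff_two_dvd.2 h)
    have := Polynomial.separable_X_pow_sub_C (n := m) (1 : ZMod 2) hm2 one_ne_zero
    simpa using this
  rw [hQ] at hsep
  obtain ⟨a, b, hab⟩ := hsep.isCoprime
  have hPQ : aeval d (P * Q) = 0 := by
    rw [← hQ, map_sub, map_pow, aeval_X, map_one, hd, sub_self]
  set W : Submodule (ZMod 2) V := U ⊔ G ⊔ LinearMap.range (aeval d P) with hW
  have hnot : v₁ ∉ W := by
    intro hmem
    obtain ⟨x, hx, z, hz, hxz⟩ := Submodule.mem_sup.1 hmem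
    obtain ⟨u, hu, g, hg, hug⟩ := Submodule.mem_sup.1 hx
    obtain ⟨y, rfl⟩ := hz
    -- apply b Q
    have h1 : aeval d (b * Q) (aeval d P y) = 0 := by
      rw [← Module.End.mul_apply, ← map_mul]
      have : b * Q * P = b * (P * Q) := by ring
      rw [this, map_mul, hPQ, mul_zero]
      rfl
    have h2 : aeval d (b * Q) v₁ = v₁ - aeval d a (aeval d P v₁) := by
      have h3 : b * Q = 1 - a * P := by
        rw [← hab]
        ring
      rw [h3, map_sub, map_one, map_mul]
      rfl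
    have h4 : aeval d (b * Q) v₁ = aeval d (b * Q) u + aeval d (b * Q) g := by
      rw [← hxz, ← hug, map_add, map_add, h1, add_zero]
    refine hv1 (aeval d (b * Q) u) (aeval_mem d U hU _ u hu) ?_ ?_
    · rw [← Module.End.mul_apply, ← map_mul]
      have : P * (b * Q) = b * (P * Q) := by ring
      rw [this, map_mul, hPQ, mul_zero]
      rfl
    · have h5 : v₁ - aeval d (b * Q) u = aeval d (b * Q) g + aeval d a (aeval d P v₁) := by
        have h6 : v₁ = aeval d (b * Q) v₁ + aeval d a (aeval d P v₁) := by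
          rw [h2]
          abel
        rw [h4] at h6
        nth_rewrite 1 [h6]
        abel
      rw [h5]
      exact G.add_mem (aeval_mem d G hG _ g hg) (aeval_mem d G hG _ _ (hFP v₁ hv1F))
  obtain ⟨ℓ, hℓ1, hℓ2⟩ := Submodule.exists_dual_map_eq_bot_of_notMem hnot inferInstance
  have hker : ∀ v ∈ W, ℓ v = 0 := by
    intro v hv
    have : ℓ v ∈ W.map ℓ := Submodule.mem_map_of_mem hv
    rw [hℓ2] at this
    exact (Submodule.mem_bot _).1 this
  refine ⟨ℓ, fun v hv => hker v ?_, fun v hv => hker v ?_, fun v => hker _ ?_, v₁, hℓ1⟩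
  · exact Submodule.mem_sup_left (Submodule.mem_sup_left hv)
  · exact Submodule.mem_sup_left (Submodule.mem_sup_right hv)
  · exact Submodule.mem_sup_right ⟨v, rfl⟩

end abs

section bridge

/-- the squares -/
def Hs (M : Type) [Field M] : AddSubgroup (Additive Mˣ) :=
  (nsmulAddMonoidHom (α := Additive Mˣ) 2).range

/-- the units modulo squares, written additively -/
abbrev Vs (M : Type) [Field M] : Type := Additive Mˣ ⧸ Hs M

theorem two_nsmul_Vs (M : Type) [Field M] (v : Vs M) : 2 • v = 0 := by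
  induction v using QuotientAddGroup.induction_on with
  | H z => exact (QuotientAddGroup.eq_zero_iff _).2 ⟨z, rfl⟩

noncomputable instance (M : Type) [Field M] : Module (ZMod 2) (Vs M) :=
  AddCommGroup.zmodModule (two_nsmul_Vs M)

variable {K M : Type} [Field K] [Field M] [Algebra K M]

/-- the class of a unit -/
def qs (x : Mˣ) : Vs M := QuotientAddGroup.mk (Additive.ofMul x)

theorem qs_mul (x y : Mˣ) : qs (x * y) = qs x + qs y := rfl

theorem qs_div (x y : Mˣ) : qs (x / y) = qs x - qs y := rfl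

theorem qs_eq_zero (x : Mˣ) : qs x = 0 ↔ Sq x := by
  constructor
  · intro h
    obtain ⟨y, hy⟩ := (QuotientAddGroup.eq_zero_iff _).1 h
    exact ⟨Additive.toMul y, (congrArg Additive.toMul hy).symm⟩
  · rintro ⟨y, rfl⟩
    exact (QuotientAddGroup.eq_zero_iff _).2 ⟨Additive.ofMul y, rfl⟩

theorem qs_surj (v : Vs M) : ∃ x : Mˣ, qs x = v := by
  induction v using QuotientAddGroup.induction_on with
  | H z => exact ⟨Additive.toMul z, rfl⟩

/-- the automorphism -/
def Ds (δ : M ≃ₐ[K] M) : Mˣ →* Mˣ := Units.map ((δ : M →+* M) : M →* M)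

/-- the induced endomorphism of the units modulo squares -/
noncomputable def ds (δ : M ≃ₐ[K] M) : Module.End (ZMod 2) (Vs M) :=
  (QuotientAddGroup.map (Hs M) (Hs M) (MonoidHom.toAdditive (Ds δ)) (by
    rintro z ⟨y, rfl⟩
    exact ⟨MonoidHom.toAdditive (Ds δ) y, (map_nsmul (MonoidHom.toAdditive (Ds δ)) 2 y).symm⟩)
    ).toZModLinearMap 2

theorem ds_qs (δ : M ≃ₐ[K] M) (x : Mˣ) : ds δ (qs x) = qs (Ds δ x) := rfl

theorem ds_pow (δ : M ≃ₐ[K] M) (j : ℕ) (x : Mˣ) :
    (ds δ ^ j) (qs x) = qs (Units.map (((δ ^ j : M ≃ₐ[K] M) : M →+* M) : M →* M) x) := by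
  induction j with
  | zero =>
    simp only [pow_zero]
    congr 1
  | succ j ih =>
    rw [pow_succ', Module.End.mul_apply, ih, ds_qs]
    congr 1
    ext
    simp [Ds, pow_succ']

theorem qs_pol (P : (ZMod 2)[X]) (δ : M ≃ₐ[K] M) (x : Mˣ) :
    qs (pol P δ x) = aeval (ds δ) P (qs x) := by
  rw [aeval_eq_sum_range', LinearMap.sum_apply]
  swap
  · exact Nat.lt_succ_self _
  have h1 : pol P δ x = ∏ j ∈ P.support,
      Units.map (((δ ^ j : M ≃ₐ[K] M) : M →+* M) : M →* M) x := by
    rw [pol, MonoidHom.finsetProd_apply]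
  have h2 : qs (pol P δ x) = ∑ j ∈ P.support,
      qs (Units.map (((δ ^ j : M ≃ₐ[K] M) : M →+* M) : M →* M) x) := by
    rw [h1]
    have h3 : ∀ s : Finset ℕ, ∀ f : ℕ → Mˣ, qs (∏ j ∈ s, f j) = ∑ j ∈ s, qs (f j) := by
      intro s f
      classical
      induction s using Finset.induction_on with
      | empty => rfl
      | insert a s ha ih => rw [Finset.prod_insert ha, Finset.sum_insert ha, qs_mul, ih]
    exact h3 _ _
  rw [h2]
  have h4 : P.support ⊆ Finset.range (P.natDegree + 1) := fun j hj => by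
    rw [Finset.mem_range]
    have := le_natDegree_of_mem_supp j hj
    omega
  rw [← Finset.sum_subset h4]
  · refine Finset.sum_congr rfl fun j hj => ?_
    have h5 : P.coeff j = 1 := by
      have h6 : P.coeff j ≠ 0 := mem_support_iff.1 hj
      revert h6
      generalize P.coeff j = c
      revert c
      decide
    rw [h5, one_smul, ds_pow]
  · intro j _ hj
    rw [notMem_support_iff.1 hj, zero_smul]
    rfl

/-- the image of a subgroup -/
noncomputable def img (U : Subgroup Mˣ) : Submodule (ZMod 2) (Vs M) :=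
  AddSubgroup.toZModSubmodule 2 ((Subgroup.toAddSubgroup U).map (QuotientAddGroup.mk' (Hs M)))

theorem mem_img (U : Subgroup Mˣ) (v : Vs M) : v ∈ img U ↔ ∃ x ∈ U, qs x = v := by
  constructor
  · rintro ⟨z, hz, rfl⟩
    exact ⟨Additive.toMul z, hz, rfl⟩
  · rintro ⟨x, hx, rfl⟩
    exact ⟨Additive.ofMul x, hx, rfl⟩

theorem s_lam : S_LAM := by
  intro K M _ _ _ m δ P hm hδ _ hP U G hsq hGδ hUδ N hN hF h0
  classical
  have hGiff : ∀ x : Mˣ, qs x ∈ img G ↔ x ∈ G := by
    intro x
    rw [mem_img]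
    constructor
    · rintro ⟨y, hy, hyx⟩
      have h1 : qs (x / y) = 0 := by
        rw [qs_div, hyx, sub_self]
      have h2 := hsq _ ((qs_eq_zero _).1 h1)
      have h3 : x = x / y * y := by simp
      rw [h3]
      exact G.mul_mem h2 hy
    · exact fun h => ⟨x, h, rfl⟩
  have hd : ds δ ^ m = 1 := by
    ext v
    obtain ⟨x, rfl⟩ := qs_surj v
    rw [ds_pow, hδ]
    rfl
  obtain ⟨ℓ, h1, h2, h3, v, hv⟩ := abs_lam m hm (ds δ) hd P hP (img U) (img G) (by
      intro v hv
      obtain ⟨x, hx, rfl⟩ := (mem_img _ _).1 hv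
      exact (mem_img _ _).2 ⟨_, hGδ x hx, rfl⟩) (by
      intro v hv
      obtain ⟨x, hx, rfl⟩ := (mem_img _ _).1 hv
      exact (mem_img _ _).2 ⟨_, hUδ x hx, rfl⟩) N (by
      intro F hFv
      choose! r hr1 hr2 using fun v (hv : v ∈ F) => (mem_img U v).1 (hFv v hv).1
      have hinj : Set.InjOn r F := by
        intro v hv w hw h
        rw [← hr2 v hv, h, hr2 w hw]
      have h5 := hN (F.image r) (by
        intro x hx
        obtain ⟨v, hv, rfl⟩ := Finset.mem_image.1 hx
        refine ⟨hr1 v hv, ?_⟩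
        rw [← qs_eq_zero, qs_pol, hr2 v hv]
        exact (hFv v hv).2) (by
        intro x hx y hy hne hs
        obtain ⟨v, hv, rfl⟩ := Finset.mem_image.1 hx
        obtain ⟨w, hw, rfl⟩ := Finset.mem_image.1 hy
        rw [← qs_eq_zero, qs_div, hr2 v hv, hr2 w hw, sub_eq_zero] at hs
        exact hne (by rw [hs]))
      rwa [Finset.card_image_of_injOn hinj] at h5) (by
      obtain ⟨F, hF1, hF2, hF3⟩ := hF
      refine ⟨F.image qs, ?_, ?_, ?_⟩
      · rw [Finset.card_image_of_injOn, hF1]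
        intro x hx y hy h
        by_contra hne
        refine hF3 x hx y hy hne ?_
        rw [← hGiff, qs_div, h, sub_self]
        exact Submodule.zero_mem _
      · intro v hv
        obtain ⟨x, hx, rfl⟩ := Finset.mem_image.1 hv
        rw [← qs_pol, hGiff]
        exact hF2 x hx
      · intro v hv w hw hne
        obtain ⟨x, hx, rfl⟩ := Finset.mem_image.1 hv
        obtain ⟨y, hy, rfl⟩ := Finset.mem_image.1 hw
        rw [← qs_div, hGiff]
        exact hF3 x hx y hy (fun h => hne (by rw [h]))) (by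
      obtain ⟨x₀, hx1, hx2, hx3, hx4⟩ := h0
      refine ⟨qs x₀, (mem_img _ _).2 ⟨x₀, hx1, rfl⟩, (hGiff _).2 hx2, ?_, ?_⟩
      · rw [← qs_pol, qs_eq_zero]
        exact hx3
      · rw [Ne, qs_eq_zero]
        exact hx4)
  have hdec : ∀ a b : ZMod 2, (if a + b = 0 then (1 : ℤˣ) else -1) =
      (if a = 0 then 1 else -1) * (if b = 0 then 1 else -1) := by decide
  refine ⟨{ toFun := fun x => if ℓ (qs x) = 0 then 1 else -1
            map_one' := ?_
            map_mul' := ?_ }, ?_, ?_, ?_, ?_⟩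
  · have : (qs (1 : Mˣ) : Vs M) = 0 := (qs_eq_zero _).2 ⟨1, by simp⟩
    simp [this]
  · intro x y
    change (if ℓ (qs (x * y)) = 0 then (1 : ℤˣ) else -1) = _
    rw [qs_mul, map_add]
    exact hdec _ _
  · intro x hx
    change (if ℓ (qs x) = 0 then (1 : ℤˣ) else -1) = 1
    rw [if_pos (h1 _ ((mem_img _ _).2 ⟨x, hx, rfl⟩))]
  · intro x hx
    change (if ℓ (qs x) = 0 then (1 : ℤˣ) else -1) = 1
    rw [if_pos (h2 _ ((mem_img _ _).2 ⟨x, hx, rfl⟩))]
  · intro x
    change (if ℓ (qs (pol P δ x)) = 0 then (1 : ℤˣ) else -1) = 1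
    rw [qs_pol, if_pos (h3 _)]
  · obtain ⟨x, rfl⟩ := qs_surj v
    exact ⟨x, if_neg hv⟩

end bridge

end Pool.Agent.Helper86.RS
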